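import Mathlib

/-!
# Project LC: an area estimate (`t`)

Mathlib only; `St_Disc` is a copy of `Pool.Agent.Y272.LC.St_Disc` (the types agree, so that
`Pool.Agent.Y421.LC.Disc.t` has type `Pool.Agent.Y272.LC.St_Disc` up to unfolding).
-/

set_option autoImplicit false

open Complex Filter Topology Metric Set MeasureTheory

namespace Pool.Agent.Y421.LC.Disc

/-- DISC: an area estimate -/
def St_Disc : Prop := ∀ (z : ℕ → ℂ) (p : ℂ) (κ : ℝ), 0 < κ → (∀ n, z n ≠ p) →
  Tendsto z atTop (𝓝 p) → Tendsto (fun n => ‖z (n + 1) - p‖ / ‖z n - p‖) atTop (𝓝 1) →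
  ∃ i j : ℕ, i ≠ j ∧ ¬ Disjoint (ball (z i) (κ * ‖z i - p‖)) (ball (z j) (κ * ‖z j - p‖))

theorem t : St_Disc := by
  intro z p κ hκ hz _ hr
  by_contra hcon
  push Not at hcon
  have hpos : ∀ n, 0 < ‖z n - p‖ := fun n => norm_pos_iff.2 (sub_ne_zero.2 (hz n))
  -- the ratios
  have h1 : ∀ j : ℕ, Tendsto (fun n => ‖z (n + j) - p‖ / ‖z n - p‖) atTop (𝓝 1) := by
    intro j
    induction j with
    | zero =>
      refine tendsto_const_nhds.congr fun n => ?_
      rw [add_zero, div_self (hpos n).ne']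
    | succ j ih =>
      have h2 := (hr.comp (tendsto_add_atTop_nat j)).mul ih
      rw [one_mul] at h2
      refine h2.congr fun n => ?_
      simp only [Function.comp_apply]
      rw [div_mul_div_cancel₀ (hpos (n + j)).ne', add_assoc]
  obtain ⟨M, hM⟩ := exists_nat_gt (16 * (1 + κ) ^ 2 / κ ^ 2)
  have h3 : ∀ᶠ n in atTop, ∀ j ∈ Finset.range M,
      1 / 2 < ‖z (n + j) - p‖ / ‖z n - p‖ ∧ ‖z (n + j) - p‖ / ‖z n - p‖ < 2 := by
    rw [Filter.eventually_all_finset]
    intro j _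
    exact ((h1 j).eventually (lt_mem_nhds (by norm_num))).and
      ((h1 j).eventually (gt_mem_nhds (by norm_num)))
  obtain ⟨n, hn⟩ := h3.exists
  set R := ‖z n - p‖ with hR
  have hR0 : 0 < R := hpos n
  have hsub : (⋃ j ∈ Finset.range M, ball (z (n + j)) (κ * ‖z (n + j) - p‖)) ⊆
      ball p (2 * (1 + κ) * R) := by
    intro w hw
    simp only [mem_iUnion, mem_ball] at hw ⊢
    obtain ⟨j, hj, hw⟩ := hw
    have h4 := (hn j hj).2
    rw [div_lt_iff₀ hR0] at h4
    calc dist w p ≤ dist w (z (n + j)) + dist (z (n + j)) p := dist_triangle _ _ _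
      _ < κ * ‖z (n + j) - p‖ + ‖z (n + j) - p‖ := by
          rw [dist_eq_norm (z (n + j))]
          linarith
      _ ≤ κ * (2 * R) + 2 * R := by nlinarith
      _ = _ := by ring
  have hdis : ((Finset.range M : Finset ℕ) : Set ℕ).PairwiseDisjoint
      fun j => ball (z (n + j)) (κ * ‖z (n + j) - p‖) := by
    intro i _ j _ hij
    exact hcon (n + i) (n + j) (by omega)
  have h5 := measure_mono (μ := volume) hsub
  rw [measure_biUnion_finset hdis fun j _ => measurableSet_ball, Complex.volume_ball] at h5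
  simp only [Complex.volume_ball] at h5
  have h6 : ∑ _j ∈ Finset.range M, ENNReal.ofReal (κ * R / 2) ^ 2 * (NNReal.pi : ENNReal) ≤
      ENNReal.ofReal (2 * (1 + κ) * R) ^ 2 * (NNReal.pi : ENNReal) := by
    refine le_trans (Finset.sum_le_sum fun j hj => ?_) h5
    have h7 := (hn j hj).1
    rw [lt_div_iff₀ hR0] at h7
    gcongr
    nlinarith
  rw [Finset.sum_const, Finset.card_range, nsmul_eq_mul, ← mul_assoc] at h6
  have hpi : (NNReal.pi : ENNReal) ≠ 0 := by
    rw [Ne, ENNReal.coe_eq_zero]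
    exact (NNReal.pi_pos).ne'
  have h8 : (M : ENNReal) * ENNReal.ofReal (κ * R / 2) ^ 2 ≤
      ENNReal.ofReal (2 * (1 + κ) * R) ^ 2 :=
    (ENNReal.mul_le_mul_iff_left hpi ENNReal.coe_ne_top).1 h6
  rw [← ENNReal.ofReal_pow (by positivity), ← ENNReal.ofReal_pow (by positivity),
    ← ENNReal.ofReal_natCast, ← ENNReal.ofReal_mul (by positivity),
    ENNReal.ofReal_le_ofReal_iff (by positivity)] at h8
  rw [div_lt_iff₀ (by positivity)] at hM
  have h9 : (M * κ ^ 2) * R ^ 2 ≤ 16 * (1 + κ) ^ 2 * R ^ 2 := by nlinarith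
  have h10 : M * κ ^ 2 ≤ 16 * (1 + κ) ^ 2 := le_of_mul_le_mul_right h9 (by positivity)
  linarith

end Pool.Agent.Y421.LC.Disc
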