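import Pool.Agent.Y298.LC.Stm

/-! Project LC (helper298): two rays in one arc whose images land together (`alb`). -/

set_option autoImplicit false

open Set Filter Metric MeasureTheory Topology Complex Bornology

namespace Pool.Agent.Y421.LC298

open Pool.Agent.H712R2 (P fc)
open Pool.Agent.H713R2 (IsExteriorMap)
open Pool.Agent.H713R2.AR (green)
open N62a1eb23 (multibrotSet)
open Pool.Agent.Y298.LC

theorem norm_ex (σ t : ℝ) : ‖ex σ t‖ = Real.exp σ := by
  unfold ex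
  rw [Complex.norm_exp]
  congr 1
  simp

theorem log_ex (σ t : ℝ) : Real.log ‖ex σ t‖ = σ := by rw [norm_ex, Real.log_exp]

theorem ex_int (σ t : ℝ) (n : ℤ) : ex σ (t + n) = ex σ t := by
  unfold ex
  rw [Complex.exp_eq_exp_iff_exists_int]
  exact ⟨n, by push_cast; ring⟩

theorem ex_eq {σ σ' t t' : ℝ} (h : ex σ t = ex σ' t') : ∃ n : ℤ, t = t' + n := by
  unfold ex at h
  rw [Complex.exp_eq_exp_iff_exists_int] at h
  obtain ⟨n, hn⟩ := h
  refine ⟨n, ?_⟩
  have h1 := congrArg Complex.im hn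
  simp at h1
  have hp := Real.pi_pos
  have h2 : (2 * Real.pi) * t = (2 * Real.pi) * (t' + n) := by linarith
  exact mul_left_cancel₀ (by positivity) h2

theorem core (hCG : S_CG) (hB2 : S_BOT2) (hSL : S_SLIT) {d : ℕ} {Ψ : ℂ → ℂ → ℂ} {ψ : ℂ → ℂ}
    {s θ x : ℝ} {c₀ : ℂ} {r : ℝ} {A : Set ℝ} {z : ℝ → ℝ → ℂ → ℂ} (hd : 2 ≤ d) (hB : Bott d Ψ)
    (hψ : IsExteriorMap (multibrotSet d) ψ) (hs : 0 < s) (hx : ∃ n : ℤ, (d : ℝ) * x = θ + n)
    (hR : RaySys d Ψ c₀ r A z) (hc : ψ (ex s θ) ∈ ball c₀ r) :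
    ∃ g : ℂ → ℂ, ∀ (p : ℂ) (t : ℝ), t ∈ A → (d : ℝ) * t ∈ A →
      (∃ n : ℤ, t + n ∈ Ioo x (x + 1 / d)) →
      Tendsto (fun σ => z (d * t) σ (ψ (ex s θ))) (𝓝[>] 0) (𝓝 p) →
      Tendsto (fun σ => z t σ (ψ (ex s θ))) (𝓝[>] 0) (𝓝 (g p)) := by
  obtain ⟨hopen, g, hgd, hgf, hg⟩ := hSL d Ψ ψ s θ x hd hB hψ hs hx
  obtain ⟨hG1, hG2⟩ := hB2 d Ψ ψ hd hB hψ (ex s θ) (by
    rw [norm_ex]
    exact Real.one_lt_exp_iff.2 hs)
  rw [log_ex] at hG1
  obtain ⟨hcont, -, -, -⟩ := hCG d hd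
  generalize ψ (ex s θ) = c at *
  have hd0 : (0 : ℝ) < d := by
    have : 0 < d := by omega
    exact_mod_cast this
  have hd2 : (2 : ℝ) ≤ d := by exact_mod_cast hd
  have hsd : s / d < s := by
    rw [div_lt_iff₀ hd0]
    nlinarith
  obtain ⟨m, hm⟩ := hx
  refine ⟨g, fun p t ht hdt hn hlim => ?_⟩
  obtain ⟨n, hn1, hn2⟩ := hn
  -- the point on the image ray is in the slit plane
  have hpot : ∀ σ' : ℝ, s ≤ σ' → green d c (Ψ c (ex σ' θ)) = σ' := by
    intro σ' hσ'
    rw [hB.pot c (ex σ' θ) (by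
      show green d c 0 < Real.log ‖ex σ' θ‖
      rw [hG1, log_ex]
      linarith), log_ex]
  have hslit : ∀ σ : ℝ, 0 < σ → z (d * t) (d * σ) c ∈ Slit Ψ c s θ := by
    intro σ hσ σ' hσ' heq
    have h1 : green d c (z (d * t) (d * σ) c) = d * σ := hR.pot _ hdt _ (by positivity) c hc
    rw [heq, hpot σ' hσ'] at h1
    have h2 : z (d * t) (d * σ) c = Ψ c (ex (d * σ) (d * t)) :=
      hR.high _ hdt _ (by positivity) c hc (by rw [hG1]; linarith)
    rw [h2] at heq
    have h3 := hB.inj c (show ex (d * σ) (d * t) ∈ Dom (green d c 0) by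
      show green d c 0 < Real.log ‖ex (d * σ) (d * t)‖
      rw [hG1, log_ex]
      linarith) (show ex σ' θ ∈ Dom (green d c 0) by
      show green d c 0 < Real.log ‖ex σ' θ‖
      rw [hG1, log_ex]
      linarith) heq
    obtain ⟨k, hk⟩ := ex_eq h3
    have h4 : (d : ℝ) * x < d * (t + n) := mul_lt_mul_of_pos_left hn1 hd0
    have h5 : (d : ℝ) * (t + n) < d * x + 1 := by
      have h5' := mul_lt_mul_of_pos_left hn2 hd0
      have h5'' : (d : ℝ) * (x + 1 / d) = d * x + 1 := by field_simp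
      rw [h5''] at h5'
      exact h5'
    have h6 : (d : ℝ) * (t + n) = θ + ((k + d * n : ℤ) : ℝ) := by
      rw [mul_add, hk]
      push_cast
      ring
    rw [h6, hm] at h4 h5
    have h7 : m < k + d * n := by
      have : (m : ℝ) < ((k + d * n : ℤ) : ℝ) := by linarith
      exact_mod_cast this
    have h8 : k + d * n < m + 1 := by
      have : ((k + d * n : ℤ) : ℝ) < ((m + 1 : ℤ) : ℝ) := by push_cast at h5 ⊢; linarith
      exact_mod_cast this
    omega
  -- the ray is the image of its image under the branch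
  have hzc : ∀ t ∈ A, ContinuousOn (fun σ => z t σ c) (Ioi 0) := by
    intro t ht
    exact (hR.cont t ht).comp (f := fun σ : ℝ => (σ, c)) (by fun_prop)
      (fun σ hσ => ⟨hσ, hc⟩)
  have hmul : MapsTo (fun σ : ℝ => d * σ) (Ioi 0) (Ioi 0) := fun σ hσ => mul_pos hd0 hσ
  have hvc : ContinuousOn (fun σ => z (d * t) (d * σ) c) (Ioi 0) :=
    (hzc _ hdt).comp (f := fun σ : ℝ => d * σ) (by fun_prop) hmul
  have hkc : ContinuousOn (fun σ => g (z (d * t) (d * σ) c)) (Ioi 0) :=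
    hgd.continuousOn.comp hvc fun σ hσ => hslit σ hσ
  have hfk : ∀ σ : ℝ, 0 < σ → g (z (d * t) (d * σ) c) ^ d = z (d * t) (d * σ) c - c := by
    intro σ hσ
    have h1 := hgf _ (hslit σ hσ)
    have h2 : g (z (d * t) (d * σ) c) ^ d + c = z (d * t) (d * σ) c := h1
    rw [← h2]
    ring_nf
    simp only [h2]
  have hfh : ∀ σ : ℝ, 0 < σ → z t σ c ^ d = z (d * t) (d * σ) c - c := by
    intro σ hσ
    have h1 : z t σ c ^ d + c = z (d * t) (d * σ) c := hR.conj t ht σ hσ c hc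
    rw [← h1]
    ring
  have hne : ∀ σ : ℝ, 0 < σ → g (z (d * t) (d * σ) c) ≠ 0 := by
    intro σ hσ h0
    have h1 := hfk σ hσ
    rw [h0, zero_pow (by omega)] at h1
    have h2 : z (d * t) (d * σ) c = c := by
      rw [← sub_eq_zero]
      exact h1.symm
    exact hslit σ hσ s le_rfl (h2.trans hG2.symm)
  have hT : ({w : ℂ | w ^ d = 1}).Finite := by
    have h1 : {w : ℂ | w ^ d = 1} ⊆ ((Polynomial.nthRoots d (1 : ℂ)).toFinset : Set ℂ) := by
      intro w hw
      rw [Finset.mem_coe, Multiset.mem_toFinset, Polynomial.mem_nthRoots (by omega)]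
      exact hw
    exact (Finset.finite_toSet _).subset h1
  have hq : ContinuousOn (fun σ => z t σ c / g (z (d * t) (d * σ) c)) (Ioi 0) :=
    (hzc t ht).div hkc fun σ hσ => hne σ hσ
  have hqT : MapsTo (fun σ => z t σ c / g (z (d * t) (d * σ) c)) (Ioi 0) {w : ℂ | w ^ d = 1} := by
    intro σ hσ
    show (z t σ c / g (z (d * t) (d * σ) c)) ^ d = 1
    rw [div_pow, hfk σ hσ, hfh σ hσ, div_self]
    rw [← hfk σ hσ]
    exact pow_ne_zero d (hne σ hσ)
  have heq : ∀ σ : ℝ, 0 < σ → z t σ c = g (z (d * t) (d * σ) c) := by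
    intro σ hσ
    have h1 := isPreconnected_Ioi.constant_of_mapsTo hT.isDiscrete hq hqT (mem_Ioi.2 hσ)
      (mem_Ioi.2 (show (0 : ℝ) < s from hs))
    have h2 : z t s c = g (z (d * t) (d * s) c) := by
      have h3 := (hg s (t + n) hsd ⟨hn1, hn2⟩).2
      rw [ex_int, show (d : ℝ) * (t + n) = d * t + ((d * n : ℤ) : ℝ) by push_cast; ring,
        ex_int] at h3
      rw [hR.high t ht s hs c hc (by rw [hG1]; exact hsd), ← h3,
        hR.high _ hdt _ (by positivity) c hc (by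
          rw [hG1]
          nlinarith)]
    rw [h2, div_self (hne s hs), div_eq_one_iff_eq (hne σ hσ)] at h1
    exact h1
  -- the limit
  have hlim' : Tendsto (fun σ => z (d * t) (d * σ) c) (𝓝[>] 0) (𝓝 p) := by
    refine hlim.comp (f := fun σ : ℝ => d * σ) ?_
    rw [tendsto_nhdsWithin_iff]
    refine ⟨?_, ?_⟩
    · have h1 : Tendsto (fun σ : ℝ => (d : ℝ) * σ) (𝓝 0) (𝓝 (d * 0)) :=
        (continuous_const.mul continuous_id).tendsto 0
      rw [mul_zero] at h1
      exact h1.mono_left nhdsWithin_le_nhds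
    · filter_upwards [self_mem_nhdsWithin] with σ hσ
      exact hmul hσ
  have hgreen : green d c p = 0 := by
    have h1 : Tendsto (fun σ => green d c (z (d * t) (d * σ) c)) (𝓝[>] 0) (𝓝 (green d c p)) := by
      have h2 : Continuous (fun w : ℂ => green d c w) :=
        Continuous.comp (g := fun p : ℂ × ℂ => green d p.1 p.2) (f := fun w : ℂ => (c, w)) hcont
          (Continuous.prodMk_right c)
      exact (h2.tendsto p).comp hlim'
    have h3 : Tendsto (fun σ : ℝ => (d : ℝ) * σ) (𝓝[>] 0) (𝓝 0) := by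
      have h1 : Tendsto (fun σ : ℝ => (d : ℝ) * σ) (𝓝 0) (𝓝 (d * 0)) :=
        (continuous_const.mul continuous_id).tendsto 0
      rw [mul_zero] at h1
      exact h1.mono_left nhdsWithin_le_nhds
    refine tendsto_nhds_unique h1 (h3.congr' ?_)
    filter_upwards [self_mem_nhdsWithin] with σ hσ
    exact (hR.pot _ hdt _ (hmul hσ) c hc).symm
  have hps : p ∈ Slit Ψ c s θ := by
    intro σ' hσ' h1
    have h2 := hpot σ' hσ'
    rw [← h1, hgreen] at h2
    linarith
  have hgp : ContinuousAt g p := (hgd.continuousOn).continuousAt (hopen.mem_nhds hps)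
  have h9 : Tendsto (fun σ => g (z (d * t) (d * σ) c)) (𝓝[>] 0) (𝓝 (g p)) :=
    hgp.tendsto.comp hlim'
  refine h9.congr' ?_
  filter_upwards [self_mem_nhdsWithin] with σ hσ
  exact (heq σ hσ).symm

theorem alb : S_CG → S_BOT2 → S_SLIT → S_ALB := by
  intro hCG hB2 hSL d Ψ ψ s θ x c₀ r A z t t' p hd hB hψ hs hx hR hc ht ht' hdt hdt' hn hn' hl hl'
  obtain ⟨g, hg⟩ := core hCG hB2 hSL hd hB hψ hs hx hR hc
  exact ⟨g p, hg p t ht hdt hn hl, hg p t' ht' hdt' hn' hl'⟩

end Pool.Agent.Y421.LC298
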