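import Pool.Agent.Y421.LC.Alb

/-! Project LC (helper298): almost no parameter ray lands at a given point (`nul`). -/

set_option autoImplicit false

open Set Filter Metric MeasureTheory Topology Complex Bornology

namespace Pool.Agent.Y421.LC298

open Pool.Agent.H712R2 (P fc)
open Pool.Agent.H713R2 (IsExteriorMap IsBeta exists_beta exteriorMap_unique)
open N62a1eb23 (multibrotSet)
open Pool.Agent.Y298.LC
open scoped ENNReal

/-- a holomorphic function without zeros has radial limit zero almost nowhere -/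
theorem null_aux {F : ℂ → ℂ} {B : ℝ} (hd : DifferentiableOn ℂ F (ball 0 1)) (h0 : F 0 = 1)
    (hne : ∀ x ∈ ball (0 : ℂ) 1, F x ≠ 0) (hb : ∀ x ∈ ball (0 : ℂ) 1, ‖F x‖ ≤ Real.exp B)
    (ρ : ℕ → ℝ) (hρ0 : ∀ k, 0 < ρ k) (hρ1 : ∀ k, ρ k < 1) :
    ∀ᵐ θ ∂(volume.restrict (Ioc 0 (2 * Real.pi))),
      ¬ Tendsto (fun k => F (circleMap 0 (ρ k) θ)) atTop (𝓝 0) := by
  have hmem : ∀ k θ, circleMap 0 (ρ k) θ ∈ ball (0 : ℂ) 1 := by
    intro k θ
    rw [mem_ball_zero_iff, norm_circleMap_zero, abs_of_pos (hρ0 k)]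
    exact hρ1 k
  have hlc : ∀ k, Continuous fun θ : ℝ => Real.log ‖F (circleMap 0 (ρ k) θ)‖ := by
    intro k
    have h1 : Continuous fun θ : ℝ => F (circleMap 0 (ρ k) θ) :=
      hd.continuousOn.comp_continuous (continuous_circleMap 0 (ρ k)) (hmem k)
    exact h1.norm.log fun θ => norm_ne_zero_iff.2 (hne _ (hmem k θ))
  have hcont : ∀ k, Continuous fun θ : ℝ => B + -Real.log ‖F (circleMap 0 (ρ k) θ)‖ :=
    fun k => continuous_const.add (hlc k).neg
  have hpos : ∀ k θ, 0 ≤ B + -Real.log ‖F (circleMap 0 (ρ k) θ)‖ := by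
    intro k θ
    have h1 : Real.log ‖F (circleMap 0 (ρ k) θ)‖ ≤ Real.log (Real.exp B) :=
      Real.log_le_log (norm_pos_iff.2 (hne _ (hmem k θ))) (hb _ (hmem k θ))
    rw [Real.log_exp] at h1
    linarith
  have hint : ∀ k, ∫⁻ θ in Ioc 0 (2 * Real.pi),
      ENNReal.ofReal (B + -Real.log ‖F (circleMap 0 (ρ k) θ)‖) = ENNReal.ofReal (2 * Real.pi * B) := by
    intro k
    have hsub : closedBall (0 : ℂ) |ρ k| ⊆ ball 0 1 := by
      apply closedBall_subset_ball
      rw [abs_of_pos (hρ0 k)]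
      exact hρ1 k
    have hcirc := AnalyticOnNhd.circleAverage_log_norm_of_ne_zero (R := ρ k) (c := 0) (g := F)
      ((hd.analyticOnNhd isOpen_ball).mono hsub) (fun u hu => hne u (hsub hu))
    rw [h0, norm_one, Real.log_one, Real.circleAverage_def, smul_eq_zero] at hcirc
    have h2 : ∫ θ in (0 : ℝ)..2 * Real.pi, Real.log ‖F (circleMap 0 (ρ k) θ)‖ = 0 := by
      rcases hcirc with h | h
      · exfalso
        have : (2 * Real.pi)⁻¹ ≠ 0 := by positivity
        exact this h
      · exact h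
    have h3 : ∫ θ in (0 : ℝ)..2 * Real.pi, (B + -Real.log ‖F (circleMap 0 (ρ k) θ)‖) =
        2 * Real.pi * B := by
      have h4 := intervalIntegral.integral_add (μ := volume) (a := 0) (b := 2 * Real.pi)
        (f := fun _ : ℝ => B) (g := fun θ : ℝ => -Real.log ‖F (circleMap 0 (ρ k) θ)‖)
        (continuous_const.intervalIntegrable _ _) ((hlc k).neg.intervalIntegrable _ _)
      rw [h4, intervalIntegral.integral_neg, h2, intervalIntegral.integral_const]
      simp
    rw [← h3, intervalIntegral.integral_of_le (by positivity),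
      ofReal_integral_eq_lintegral_ofReal ((hcont k).integrableOn_Ioc)
        (Eventually.of_forall (hpos k))]
  have hF := lintegral_liminf_le (μ := volume.restrict (Ioc 0 (2 * Real.pi))) (u := atTop)
    (f := fun (k : ℕ) (θ : ℝ) => ENNReal.ofReal (B + -Real.log ‖F (circleMap 0 (ρ k) θ)‖))
    (fun k => (hcont k).measurable.ennreal_ofReal)
  simp only [hint] at hF
  rw [liminf_const] at hF
  have hfin := ae_lt_top' (μ := volume.restrict (Ioc 0 (2 * Real.pi)))
    (Measurable.liminf fun k => (hcont k).measurable.ennreal_ofReal).aemeasurable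
    (ne_top_of_le_ne_top ENNReal.ofReal_ne_top hF)
  filter_upwards [hfin] with θ hθ hlim
  have h1 : Tendsto (fun k => ‖F (circleMap 0 (ρ k) θ)‖) atTop (𝓝[>] 0) := by
    rw [tendsto_nhdsWithin_iff]
    refine ⟨?_, Eventually.of_forall fun k => norm_pos_iff.2 (hne _ (hmem k θ))⟩
    have := hlim.norm
    rwa [norm_zero] at this
  have h2 : Tendsto (fun k => B + -Real.log ‖F (circleMap 0 (ρ k) θ)‖) atTop atTop :=
    tendsto_atTop_add_const_left _ B
      (tendsto_neg_atBot_atTop.comp (Real.tendsto_log_nhdsGT_zero.comp h1))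
  have h3 := (ENNReal.tendsto_ofReal_atTop.comp h2).liminf_eq
  have h4 : liminf (fun k => ENNReal.ofReal (B + -Real.log ‖F (circleMap 0 (ρ k) θ)‖)) atTop = ∞ :=
    h3
  rw [h4] at hθ
  exact lt_irrefl _ hθ

theorem inv_ex (σ t : ℝ) : (ex σ t)⁻¹ = circleMap 0 (Real.exp (-σ)) (-2 * Real.pi * t) := by
  unfold ex circleMap
  rw [← Complex.exp_neg, zero_add, Complex.ofReal_exp, ← Complex.exp_add]
  congr 1
  push_cast
  ring

/-- extension by periodicity -/
theorem null_per {A : Set ℝ} (hA : ∀ (θ : ℝ) (n : ℤ), θ ∈ A → θ + n • (2 * Real.pi) ∈ A)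
    (h : volume (A ∩ Ioc 0 (2 * Real.pi)) = 0) : volume A = 0 := by
  have h1 : A ⊆ ⋃ n : ℤ, (fun θ : ℝ => θ + n • (2 * Real.pi)) ⁻¹' (A ∩ Ioc 0 (2 * Real.pi)) := by
    intro θ hθ
    obtain ⟨n, hn, -⟩ := existsUnique_add_zsmul_mem_Ioc Real.two_pi_pos θ 0
    rw [zero_add] at hn
    exact mem_iUnion.2 ⟨n, hA θ n hθ, hn⟩
  refine measure_mono_null h1 (measure_iUnion_null fun n => ?_)
  rw [measure_preimage_add_right]
  exact h

theorem nul : S_NUL := by
  intro d ψ c hd hψ
  by_cases hc : c ∈ multibrotSet d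
  · obtain ⟨β, hβ⟩ := exists_beta hd
    have hF1 : DifferentiableOn ℂ (fun x => β x - c * x) (ball 0 1) :=
      hβ.diff.sub ((differentiable_const c).mul differentiable_id).differentiableOn
    have hF0 : (fun x => β x - c * x) 0 = 1 := by
      simp only [mul_zero, sub_zero]
      exact hβ.zero
    have hFn : ∀ x ∈ ball (0 : ℂ) 1, (fun x => β x - c * x) x ≠ 0 := by
      intro x hx h
      by_cases hx0 : x = 0
      · subst hx0
        rw [hF0] at h
        exact one_ne_zero h
      · apply hβ.notMem x hx hx0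
        have h1 : β x = c * x := by
          have h2 : β x - c * x = 0 := h
          exact sub_eq_zero.1 h2
        have h3 : x⁻¹ * β x = c := by
          rw [h1]
          field_simp
        rw [h3]
        exact hc
    have hFb : ∀ x ∈ ball (0 : ℂ) 1, ‖(fun x => β x - c * x) x‖ ≤
        Real.exp (Real.log (2 + ‖c‖)) := by
      intro x hx
      rw [Real.exp_log (by positivity)]
      refine (norm_sub_le _ _).trans (add_le_add (hβ.bound x hx) ?_)
      rw [norm_mul]
      rw [mem_ball_zero_iff] at hx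
      exact mul_le_of_le_one_right (norm_nonneg _) hx.le
    let ρ : ℕ → ℝ := fun k => Real.exp (-(1 / ((k : ℝ) + 1)))
    have hσ : ∀ k : ℕ, 0 < 1 / ((k : ℝ) + 1) := fun k => by positivity
    have hae := null_aux hF1 hF0 hFn hFb ρ (fun k => Real.exp_pos _)
      (fun k => by
        show Real.exp (-(1 / ((k : ℝ) + 1))) < 1
        have h7 := Real.exp_lt_exp.2 (neg_lt_zero.2 (hσ k))
        rwa [Real.exp_zero] at h7)
    set A : Set ℝ := {θ | Tendsto (fun k => (fun x => β x - c * x) (circleMap 0 (ρ k) θ)) atTop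
      (𝓝 0)} with hA
    have hAper : ∀ (θ : ℝ) (n : ℤ), θ ∈ A → θ + n • (2 * Real.pi) ∈ A := by
      intro θ n hθ
      have h1 : ∀ k, circleMap 0 (ρ k) (θ + n • (2 * Real.pi)) = circleMap 0 (ρ k) θ := fun k =>
        (periodic_circleMap 0 (ρ k)).zsmul n θ
      show Tendsto (fun k => (fun x => β x - c * x) (circleMap 0 (ρ k) (θ + n • (2 * Real.pi))))
        atTop (𝓝 0)
      simp only [h1]
      exact hθ
    have hA0 : volume (A ∩ Ioc 0 (2 * Real.pi)) = 0 := by
      rw [ae_restrict_iff' measurableSet_Ioc, ae_iff] at hae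
      refine measure_mono_null ?_ hae
      rintro θ ⟨h1, h2⟩ h3
      exact h3 h2 h1
    have hAn := null_per hAper hA0
    have hpre : volume ((fun t : ℝ => (-2 * Real.pi) * t) ⁻¹' A) = 0 := by
      rw [Real.volume_preimage_mul_left (by
        have := Real.pi_pos
        nlinarith), hAn, mul_zero]
    rw [ae_iff]
    refine measure_mono_null ?_ hpre
    intro t ht
    simp only [not_not] at ht
    have ht' : Tendsto (fun σ : ℝ => ψ (ex σ t)) (𝓝[>] 0) (𝓝 c) := ht
    show Tendsto (fun k => (fun x => β x - c * x) (circleMap 0 (ρ k) (-2 * Real.pi * t))) atTop (𝓝 0)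
    have hseq : Tendsto (fun k : ℕ => 1 / ((k : ℝ) + 1)) atTop (𝓝[>] 0) := by
      rw [tendsto_nhdsWithin_iff]
      exact ⟨tendsto_one_div_add_atTop_nhds_zero_nat, Eventually.of_forall hσ⟩
    have h1 := ht'.comp hseq
    have h2 : Tendsto (fun k : ℕ => ‖ψ (ex (1 / ((k : ℝ) + 1)) t) - c‖) atTop (𝓝 0) := by
      have := (h1.sub_const c).norm
      rwa [sub_self, norm_zero] at this
    refine squeeze_zero_norm (fun k => ?_) h2
    have h3 : circleMap 0 (ρ k) (-2 * Real.pi * t) = (ex (1 / ((k : ℝ) + 1)) t)⁻¹ :=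
      (inv_ex _ _).symm
    have hz : 1 < ‖ex (1 / ((k : ℝ) + 1)) t‖ := by
      rw [norm_ex]
      exact Real.one_lt_exp_iff.2 (hσ k)
    have hz0 : ex (1 / ((k : ℝ) + 1)) t ≠ 0 := Complex.exp_ne_zero _
    have h4 : (fun x => β x - c * x) (circleMap 0 (ρ k) (-2 * Real.pi * t)) =
        (ex (1 / ((k : ℝ) + 1)) t)⁻¹ * (ψ (ex (1 / ((k : ℝ) + 1)) t) - c) := by
      rw [h3, exteriorMap_unique hβ hψ hz]
      field_simp
    rw [h4, norm_mul, norm_inv]
    exact mul_le_of_le_one_left (norm_nonneg _) (inv_le_one_of_one_le₀ hz.le)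
  · refine Eventually.of_forall fun t hlim => ?_
    have hU : IsOpen {z : ℂ | 1 < ‖z‖} := isOpen_lt continuous_const continuous_norm
    have h1 : c ∈ ψ '' {z | 1 < ‖z‖} := by
      rw [hψ.image]
      exact hc
    obtain ⟨w, hw, rfl⟩ := h1
    have hw1 : 1 < ‖w‖ := hw
    have hwU : {z : ℂ | 1 < ‖z‖} ∈ 𝓝 w := hU.mem_nhds hw
    have hmap : 𝓝 (ψ w) ≤ map ψ (𝓝 w) := by
      rcases (hψ.diff.analyticAt hwU).eventually_constant_or_nhds_le_map_nhds with h | h
      · exfalso
        have h2 : ∀ᶠ z in 𝓝[≠] w, z = w := by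
          filter_upwards [nhdsWithin_le_nhds h, nhdsWithin_le_nhds hwU] with z hz hz'
          exact hψ.inj hz' hw hz
        obtain ⟨z, hz1, hz2⟩ := (h2.and self_mem_nhdsWithin).exists
        exact hz2 hz1
      · exact h
    have hV : ψ '' ball w ((‖w‖ - 1) / 2) ∈ 𝓝 (ψ w) :=
      hmap (image_mem_map (ball_mem_nhds w (by linarith)))
    have h3 : ∀ᶠ σ : ℝ in 𝓝[>] 0, Real.exp σ < (1 + ‖w‖) / 2 := by
      have h4 : Tendsto Real.exp (𝓝 0) (𝓝 1) := by
        have := Real.continuous_exp.tendsto 0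
        rwa [Real.exp_zero] at this
      exact nhdsWithin_le_nhds (h4.eventually_lt_const (by linarith))
    obtain ⟨σ, ⟨h4, h5⟩, h6⟩ := (((hlim.eventually_mem hV).and h3).and self_mem_nhdsWithin).exists
    obtain ⟨v, hv, hvψ⟩ := h4
    have hσ : 1 < ‖ex σ t‖ := by
      rw [norm_ex]
      exact Real.one_lt_exp_iff.2 h6
    have hvn : (1 + ‖w‖) / 2 < ‖v‖ := by
      rw [mem_ball, dist_eq_norm] at hv
      have h7 : ‖w‖ ≤ ‖v‖ + ‖v - w‖ := by
        have := norm_sub_norm_le w v
        rw [norm_sub_rev] at this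
        linarith
      linarith
    have h7 := hψ.inj (show v ∈ {z : ℂ | 1 < ‖z‖} from by
      show 1 < ‖v‖
      linarith) (show ex σ t ∈ {z : ℂ | 1 < ‖z‖} from hσ) hvψ
    rw [h7, norm_ex] at hvn
    linarith

end Pool.Agent.Y421.LC298
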